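import Mathlib
import Pool.Agent.H97.Gfp

namespace Pool.Agent.Results.MP_f650bf_an.Yes

open Set

theorem result {𝕜 X : Type*} [RCLike 𝕜] [NormedAddCommGroup X] [NormedSpace 𝕜 X]
    [NormedSpace ℝ X] [IsScalarTower ℝ 𝕜 X] [CompleteSpace X] (C : Set X)
    (hb : Bornology.IsBounded C) (hcl : IsClosed C) (hc : Convex ℝ C)
    (hn : ¬ IsCompact (toWeakSpace 𝕜 X '' C)) :
    ∃ K ⊆ C, K.Nonempty ∧ Bornology.IsBounded K ∧ IsClosed K ∧ Convex ℝ K ∧
      ∃ f : X → X, MapsTo f K K ∧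
        (∀ x ∈ K, ∀ y ∈ K, ∀ t ∈ Icc (0:ℝ) 1,
          f (t • x + (1 - t) • y) = t • f x + (1 - t) • f y) ∧
        (∃ L > (0:ℝ), ∀ p : ℕ, ∀ x ∈ K, ∀ y ∈ K, ‖f^[p] x - f^[p] y‖ ≤ L * ‖x - y‖) ∧
        ∀ x ∈ K, f x ≠ x := by
  classical
  obtain ⟨x, hx, M, hM, h⟩ := Pool.Agent.H97.Gfp.wide' hb hcl hc hn
  let Y := (Submodule.span ℝ (range x)).topologicalClosure
  have hY : IsClosed (Y : Set X) := Submodule.isClosed_topologicalClosure _
  have : CompleteSpace Y := hY.completeSpace_coe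
  let y : ℕ → Y := fun n => ⟨x n, Submodule.le_topologicalClosure _ (Submodule.subset_span ⟨n, rfl⟩)⟩
  have lc : ∀ {Z : Type _} [AddCommGroup Z] [Module ℝ Z] (v : ℕ → Z) (t : ℕ →₀ ℝ) (n : ℕ),
      t.support ⊆ Finset.range n →
      Finsupp.linearCombination ℝ v t = ∑ i ∈ Finset.range n, t i • v i := by
    intro Z _ _ v t n ht
    rw [Finsupp.linearCombination_apply, Finsupp.sum_of_support_subset _ ht _ (by simp)]
  have lc' : ∀ (v : ℕ → ℝ) (t : ℕ →₀ ℝ) (n : ℕ), t.support ⊆ Finset.range n →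
      Finsupp.linearCombination ℝ v t = ∑ i ∈ Finset.range n, t i * v i := by
    intro v t n ht
    rw [Finsupp.linearCombination_apply, Finsupp.sum_of_support_subset _ ht _ (by simp)]
    rfl
  have nn : ∀ (g : ℕ → ℕ) (t : ℕ → ℝ) (n : ℕ), ‖∑ i ∈ Finset.range n, t i • y (g i)‖ =
      ‖∑ i ∈ Finset.range n, t i • x (g i)‖ := by
    intro g t n
    rw [← Submodule.norm_coe, Submodule.coe_sum]
    rfl
  have hd : DenseRange (Finsupp.linearCombination ℝ y) := by
    intro w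
    rw [Topology.IsInducing.subtypeVal.closure_eq_preimage_closure_image]
    refine closure_mono ?_ w.2
    intro u hu
    rw [← Finsupp.range_linearCombination] at hu
    obtain ⟨t, rfl⟩ := hu
    refine ⟨_, ⟨t, rfl⟩, ?_⟩
    exact Finsupp.apply_linearCombination ℝ Y.subtype y t
  obtain ⟨T, t1, t2, t3⟩ := Pool.Agent.H97.Gfp.core y hd M hM (fun k t => by
      obtain ⟨n, hn⟩ := t.support.exists_nat_subset_range
      rw [lc' _ t n hn, lc _ t n hn, nn (fun i => i)]
      exact (h k n t).1) (fun k t => by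
      obtain ⟨n, hn⟩ := t.support.exists_nat_subset_range
      rw [lc _ t n hn, lc _ t n hn, nn (fun i => i), nn (fun i => max k i)]
      exact (h k n t).2)
  let f : X → X := fun u => if hu : u ∈ Y then (T ⟨u, hu⟩ : X) else u
  have hf : ∀ w : Y, f w = T w := fun w => by simp [f]
  have hfp : ∀ (p : ℕ) (w : Y), f^[p] w = (T^[p] w : Y) := fun p w =>
    ((Function.Semiconj.iterate_right (f := Subtype.val) (ga := T) (gb := f)
      (fun w => (hf w).symm) p) w).symm
  have hK : Subtype.val '' closure (convexHull ℝ (range y)) ⊆ C := by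
    rw [image_subset_iff]
    exact closure_minimal (convexHull_min (by rintro _ ⟨n, rfl⟩; exact hx n)
      (hc.linear_preimage Y.subtype)) (hcl.preimage continuous_subtype_val)
  refine ⟨_, hK, ⟨_, _, subset_closure (subset_convexHull ℝ _ ⟨0, rfl⟩), rfl⟩, hb.subset hK,
    hY.isClosedEmbedding_subtypeVal.isClosedMap _ isClosed_closure,
    (convex_convexHull ℝ _).closure.linear_image Y.subtype, f, ?_, ?_, ⟨M, hM, ?_⟩, ?_⟩
  · rintro _ ⟨w, hw, rfl⟩
    exact ⟨_, t1 hw, (hf w).symm⟩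
  · rintro _ ⟨u, -, rfl⟩ _ ⟨w, -, rfl⟩ t -
    have := hf (t • u + (1 - t) • w)
    simpa [hf] using this
  · rintro p _ ⟨u, -, rfl⟩ _ ⟨w, -, rfl⟩
    have := t2 p (u - w)
    rw [iterate_map_sub] at this
    rw [hfp, hfp]
    exact this
  · rintro _ ⟨w, hw, rfl⟩ h0
    exact t3 w hw (Subtype.ext ((hf w).symm.trans h0))

end Pool.Agent.Results.MP_f650bf_an.Yes
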